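import Pool.Agent.R630.ZP.Main

set_option autoImplicit false
set_option linter.unusedSectionVars false

open scoped Matrix ENNReal

namespace Pool.Agent.R630.ZP

open Pool.Agent.H496R3.ZS (IsAmenable)
open Pool.Agent.H919R4.ZS (FinRes toRed)
open Pool.Agent.TH98.ZT (URep IsChn chains cyc bd bdHom exists_reps)

noncomputable section

variable {G : Type} [Group G] {C : Subgroup G} {a b e m : ℕ}

/-- the pairing as a sum over representatives of the cosets on which the cochain lives -/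
lemma pair_eq {V : Type} [NormedAddCommGroup V] [InnerProductSpace ℂ V] (π : URep C V)
    (z c : Fin a → G → V) (hz1 : ∀ (j : Fin a) (d : C) (x : G), z j (d * x) = π.app d (z j x))
    (hc1 : ∀ (j : Fin a) (d : C) (x : G), c j (d * x) = π.app d (c j x))
    (T : Finset G) (hT : ∀ t ∈ T, ∀ t' ∈ T, t * t'⁻¹ ∈ C → t = t')
    (hs : ∀ (j : Fin a) (x : G), c j x ≠ 0 → ∃ t ∈ T, x * t⁻¹ ∈ C) :
    pair C z c = ∑ t ∈ T, ∑ j, (inner ℂ (z j t) (c j t) : ℂ) := by
  classical
  have hinj : Set.InjOn (fun t : G => (Quotient.mk (QuotientGroup.rightRel C) t)) T := by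
    intro t ht t' ht' htt
    have h7 := Quotient.exact htt
    have h8 : t' * t⁻¹ ∈ C := QuotientGroup.rightRel_apply.1 h7
    exact (hT t' ht' t ht h8).symm
  have hout : ∀ x : G, ∃ d : C, (Quotient.mk (QuotientGroup.rightRel C) x).out = d * x := by
    intro x
    have h7 : Quotient.mk (QuotientGroup.rightRel C) (Quotient.mk (QuotientGroup.rightRel C) x).out =
      Quotient.mk (QuotientGroup.rightRel C) x := Quotient.out_eq _
    have h8 : x * ((Quotient.mk (QuotientGroup.rightRel C) x).out)⁻¹ ∈ C :=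
      QuotientGroup.rightRel_apply.1 (Quotient.exact h7)
    refine ⟨⟨_, h8⟩⁻¹, ?_⟩
    change _ = (x * ((Quotient.mk (QuotientGroup.rightRel C) x).out)⁻¹)⁻¹ * x
    group
  have hinv : ∀ x : G, (∑ j, (inner ℂ (z j (Quotient.mk (QuotientGroup.rightRel C) x).out)
      (c j (Quotient.mk (QuotientGroup.rightRel C) x).out) : ℂ)) =
      ∑ j, (inner ℂ (z j x) (c j x) : ℂ) := by
    intro x
    obtain ⟨d, hd⟩ := hout x
    refine Finset.sum_congr rfl fun j _ => ?_
    rw [hd, hz1, hc1]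
    exact (π.hom d).inner_map_map _ _
  rw [pair, finsum_eq_sum_of_support_subset (s := T.image
    (fun t : G => (Quotient.mk (QuotientGroup.rightRel C) t)))]
  · rw [Finset.sum_image hinj]
    exact Finset.sum_congr rfl fun t _ => hinv t
  · intro q hq
    induction q using Quotient.inductionOn with
    | h x =>
      rw [Function.mem_support] at hq
      rw [hinv x] at hq
      obtain ⟨j, -, hj⟩ := Finset.exists_ne_zero_of_sum_ne_zero hq
      have h8 : c j x ≠ 0 := by
        intro h0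
        rw [h0, inner_zero_right] at hj
        exact hj rfl
      obtain ⟨t, ht, htC⟩ := hs j x h8
      rw [Finset.coe_image]
      refine ⟨t, ht, ?_⟩
      refine Quotient.sound ?_
      exact QuotientGroup.rightRel_apply.2 htC

/-- the trivial representation -/
def triv (C : Subgroup G) : URep C ℂ := ⟨1⟩

lemma triv_app (d : C) (v : ℂ) : (triv C).app d v = v := rfl

/-- the boundary as a linear map -/
def bdL (D : Matrix (Fin a) (Fin b) (MonoidAlgebra ℤ G)) :
    (Fin a → G → ℂ) →ₗ[ℂ] (Fin b → G → ℂ) where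
  toFun := bd D
  map_add' f g := Pool.Agent.TH98.ZT.bd_add D f g
  map_smul' r f := by
    funext k x
    simp only [bd, Pi.smul_apply, RingHom.id_apply, smul_eq_mul, Finset.mul_sum]
    refine Finset.sum_congr rfl fun j _ => Finset.sum_congr rfl fun g _ => ?_
    simp only [zsmul_eq_mul]
    ring

/-- compactly supported complex chains of `M_C` -/
def CH (C : Subgroup G) (m : ℕ) : Submodule ℂ (Fin m → G → ℂ) where
  carrier := {f | IsChn (triv C) f}
  zero_mem' := Pool.Agent.TH98.ZT.isChn_zero _ m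
  add_mem' := Pool.Agent.TH98.ZT.IsChn.add
  smul_mem' := by
    intro r f hf
    obtain ⟨h1, T, hT⟩ := hf
    refine ⟨fun j d x => ?_, T, fun j x hx => hT j x ?_⟩
    · change r • f j (d * x) = _
      rw [h1]
      rfl
    · intro h0
      apply hx
      change r • f j x = 0
      rw [h0, smul_zero]

open Classical in
/-- the cell of `M_C` as a chain -/
def cell (C : Subgroup G) {m : ℕ} (l : Fin m) (x : G) : Fin m → G → ℂ :=
  fun j y => if j = l ∧ y * x⁻¹ ∈ C then 1 else 0

lemma cell_mem (l : Fin m) (x : G) : cell C l x ∈ CH C m := by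
  classical
  refine ⟨fun j d y => ?_, {x}, fun j y hy => ⟨x, Finset.mem_singleton_self x, ?_⟩⟩
  · change (if j = l ∧ (d : G) * y * x⁻¹ ∈ C then (1 : ℂ) else 0) =
      if j = l ∧ y * x⁻¹ ∈ C then (1 : ℂ) else 0
    have h : (d : G) * y * x⁻¹ ∈ C ↔ y * x⁻¹ ∈ C := by
      rw [mul_assoc]
      exact C.mul_mem_cancel_left d.2
    rw [h]
  · by_contra h
    apply hy
    change (if j = l ∧ y * x⁻¹ ∈ C then (1 : ℂ) else 0) = 0
    rw [if_neg (fun h' => h h'.2)]

lemma cell_mul (l : Fin m) (d : C) (x : G) : cell C l (d * x) = cell C l x := by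
  classical
  funext j y
  change (if j = l ∧ y * ((d : G) * x)⁻¹ ∈ C then (1 : ℂ) else 0) =
      if j = l ∧ y * x⁻¹ ∈ C then (1 : ℂ) else 0
  have h : y * ((d : G) * x)⁻¹ ∈ C ↔ y * x⁻¹ ∈ C := by
    rw [mul_inv_rev, ← mul_assoc]
    exact C.mul_mem_cancel_right (C.inv_mem d.2)
  rw [h]

lemma bd_cell (D : Matrix (Fin a) (Fin b) (MonoidAlgebra ℤ G)) (j : Fin a) (x : G) :
    bd D (cell C j x) = ∑ l, ∑ g ∈ (D j l).coeff.support, (D j l).coeff g • cell C l (x * g) := by
  classical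
  funext l y
  rw [Finset.sum_apply, Finset.sum_apply, bd, Finset.sum_eq_single j, Finset.sum_eq_single l]
  · rw [Finset.sum_apply, Finset.sum_apply]
    refine Finset.sum_congr rfl fun g _ => ?_
    change (D j l).coeff g • (if j = j ∧ y * g⁻¹ * x⁻¹ ∈ C then (1 : ℂ) else 0) =
      (D j l).coeff g • (if l = l ∧ y * (x * g)⁻¹ ∈ C then (1 : ℂ) else 0)
    rw [mul_inv_rev, ← mul_assoc]
    simp
  · intro l' _ hl'
    rw [Finset.sum_apply, Finset.sum_apply]
    refine Finset.sum_eq_zero fun g _ => ?_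
    change (D j l').coeff g • (if l = l' ∧ y * (x * g)⁻¹ ∈ C then (1 : ℂ) else 0) = 0
    rw [if_neg (fun h => hl' h.1.symm), smul_zero]
  · intro h; exact absurd (Finset.mem_univ l) h
  · intro j' _ hj'
    refine Finset.sum_eq_zero fun g _ => ?_
    change (D j' l).coeff g • (if j' = j ∧ y * g⁻¹ * x⁻¹ ∈ C then (1 : ℂ) else 0) = 0
    rw [if_neg (fun h => hj' h.1), smul_zero]
  · intro h; exact absurd (Finset.mem_univ j) h

/-- conjugate chains -/
lemma conj_mem {f : Fin m → G → ℂ} (hf : f ∈ CH C m) : (fun j x => (starRingEnd ℂ) (f j x)) ∈ CH C m := by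
  obtain ⟨h1, T, hT⟩ := hf
  refine ⟨fun j d x => ?_, T, fun j x hx => hT j x ?_⟩
  · change (starRingEnd ℂ) (f j (d * x)) = (starRingEnd ℂ) (f j x)
    rw [h1]
    rfl
  · intro h0
    apply hx
    change (starRingEnd ℂ) (f j x) = 0
    rw [h0, map_zero]

lemma bd_conj (D : Matrix (Fin a) (Fin b) (MonoidAlgebra ℤ G)) (f : Fin a → G → ℂ)
    (h : bd D f = 0) : bd D (fun j x => (starRingEnd ℂ) (f j x)) = 0 := by
  funext k x
  have h1 : bd D f k x = 0 := by rw [h]; rfl
  have h2 : bd D (fun j x => (starRingEnd ℂ) (f j x)) k x = (starRingEnd ℂ) (bd D f k x) := by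
    simp only [bd, map_sum, map_zsmul]
  rw [h2, h1, map_zero]
  rfl

/-- a compactly supported cocycle which pairs trivially with all cycles is a coboundary -/
theorem exists_primitive (X : FinRes G) (k : ℕ) (c : Fin (X.n (k + 1)) → G → ℂ)
    (hc : c ∈ CH C (X.n (k + 1)))
    (hp : ∀ z : Fin (X.n (k + 1)) → G → ℂ, z ∈ CH C (X.n (k + 1)) → bd (X.d k) z = 0 →
      pair C z c = 0) :
    ∃ b : Fin (X.n k) → G → ℂ, (∀ (j : Fin (X.n k)) (d : C) (x : G), b j (d * x) = b j x) ∧
      cb (X.d k) b = c := by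
  classical
  obtain ⟨hc1, S, hS⟩ := hc
  obtain ⟨T, hT, hST⟩ := exists_reps C S
  have hs : ∀ (j : Fin (X.n (k + 1))) (x : G), c j x ≠ 0 → ∃ t ∈ T, x * t⁻¹ ∈ C := by
    intro j x hx
    obtain ⟨s, hs, hsC⟩ := hS j x hx
    obtain ⟨t, ht, htC⟩ := hST s hs
    refine ⟨t, ht, ?_⟩
    have e : x * t⁻¹ = (x * s⁻¹) * (s * t⁻¹) := by group
    rw [e]
    exact C.mul_mem hsC htC
  let φ : (Fin (X.n (k + 1)) → G → ℂ) →ₗ[ℂ] ℂ :=
    { toFun := fun z => ∑ t ∈ T, ∑ j, z j t * c j t
      map_add' := by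
        intro z w
        simp only [Pi.add_apply, add_mul, Finset.sum_add_distrib]
      map_smul' := by
        intro r z
        simp only [Pi.smul_apply, smul_eq_mul, Finset.mul_sum, RingHom.id_apply, mul_assoc] }
  have hφ : ∀ z, φ z = ∑ t ∈ T, ∑ j, z j t * c j t := fun z => rfl
  have hann : φ.comp (CH C (X.n (k + 1))).subtype ∈
      (LinearMap.ker ((bdL (X.d k)).comp (CH C (X.n (k + 1))).subtype)).dualAnnihilator := by
    rw [Submodule.mem_dualAnnihilator]
    intro z hz
    have h1 : bd (X.d k) z.1 = 0 := hz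
    have h2 := hp _ (conj_mem z.2) (bd_conj _ _ h1)
    rw [pair_eq (triv C) _ c (conj_mem z.2).1 hc1 T hT hs] at h2
    change φ z.1 = 0
    rw [hφ, ← h2]
    refine Finset.sum_congr rfl fun t _ => Finset.sum_congr rfl fun j _ => ?_
    rw [RCLike.inner_apply]
    change _ = c j t * (starRingEnd ℂ) ((starRingEnd ℂ) (z.1 j t))
    rw [Complex.conj_conj, mul_comm]
  rw [← LinearMap.range_dualMap_eq_dualAnnihilator_ker] at hann
  obtain ⟨ψ, hψ⟩ := hann
  have hψ' : ∀ z ∈ CH C (X.n (k + 1)), ψ (bd (X.d k) z) = φ z := by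
    intro z hz
    exact congrArg (fun f => f ⟨z, hz⟩) hψ
  refine ⟨fun l x => ψ (cell C l x), fun j d x => by
    change ψ (cell C j (d * x)) = ψ (cell C j x)
    rw [cell_mul], ?_⟩
  funext j x
  have h1 : cb (X.d k) (fun l x => ψ (cell C l x)) j x = ψ (bd (X.d k) (cell C j x)) := by
    rw [bd_cell, map_sum, cb]
    refine Finset.sum_congr rfl fun l _ => ?_
    rw [map_sum]
    refine Finset.sum_congr rfl fun g _ => ?_
    rw [map_zsmul]
  rw [h1, hψ' _ (cell_mem j x), hφ]
  by_cases hx : c j x = 0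
  · rw [hx]
    refine Finset.sum_eq_zero fun t _ => ?_
    refine Finset.sum_eq_zero fun i _ => ?_
    change (if i = j ∧ t * x⁻¹ ∈ C then (1 : ℂ) else 0) * c i t = 0
    by_cases h2 : i = j ∧ t * x⁻¹ ∈ C
    · obtain ⟨rfl, h3⟩ := h2
      have h4 : c i t = c i x := by
        have h5 := hc1 i ⟨t * x⁻¹, h3⟩ x
        change c i (t * x⁻¹ * x) = c i x at h5
        rw [inv_mul_cancel_right] at h5
        exact h5
      rw [h4, hx, mul_zero]
    · rw [if_neg h2, zero_mul]
  · obtain ⟨t, ht, htC⟩ := hs j x hx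
    rw [Finset.sum_eq_single t, Finset.sum_eq_single j]
    · change (if j = j ∧ t * x⁻¹ ∈ C then (1 : ℂ) else 0) * c j t = c j x
      have h3 : t * x⁻¹ ∈ C := by
        have := C.inv_mem htC
        rwa [mul_inv_rev, inv_inv] at this
      rw [if_pos ⟨rfl, h3⟩, one_mul]
      have h5 := hc1 j ⟨t * x⁻¹, h3⟩ x
      change c j (t * x⁻¹ * x) = c j x at h5
      rw [inv_mul_cancel_right] at h5
      exact h5
    · intro i _ hi
      change (if i = j ∧ t * x⁻¹ ∈ C then (1 : ℂ) else 0) * c i t = 0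
      rw [if_neg (fun h => hi h.1), zero_mul]
    · intro h; exact absurd (Finset.mem_univ j) h
    · intro t' ht' hne
      refine Finset.sum_eq_zero fun i _ => ?_
      change (if i = j ∧ t' * x⁻¹ ∈ C then (1 : ℂ) else 0) * c i t' = 0
      rw [if_neg, zero_mul]
      intro h
      apply hne
      refine hT t' ht' t ht ?_
      have e : t' * t⁻¹ = (t' * x⁻¹) * (x * t⁻¹) := by group
      rw [e]
      exact C.mul_mem h.2 htC
    · intro h; exact absurd ht h

theorem coh (X : FinRes G) (hC : IsAmenable C) (k : ℕ) (c : Fin (X.n (k + 1)) → G → ℂ)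
    (hinv : ∀ (j : Fin (X.n (k + 1))) (d : C) (x : G), c j (d * x) = c j x)
    (hs : ∃ T : Finset G, ∀ (j : Fin (X.n (k + 1))) (x : G), c j x ≠ 0 → ∃ t ∈ T, x * t⁻¹ ∈ C)
    (hcb : cb (X.d (k + 1)) c = 0)
    (hnb : ¬ ∃ b : Fin (X.n k) → G → ℂ,
      (∀ (j : Fin (X.n k)) (d : C) (x : G), b j (d * x) = b j x) ∧ cb (X.d k) b = c) :
    ∃ i ≤ k + 1, Nontrivial (X.homology (toRed G) i) := by
  have hc : c ∈ CH C (X.n (k + 1)) := ⟨fun j d x => hinv j d x, hs⟩
  by_contra hcon
  apply hnb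
  refine exists_primitive X k c hc fun z hz hzb => ?_
  by_contra hne
  exact hcon (final X (triv C) (Or.inl hC) (k + 1) z c ⟨hz, hzb⟩ hc hcb hne)

end

end Pool.Agent.R630.ZP
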