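import Pool.Agent.TH98.ZT.Defs

/-!
Cochains and the pairing of cochains and chains on the covering `M_C` of a finite aspherical
complex, with coefficients in a unitary representation of `C`.

Let `X : FinRes G` be the cellular chain complex of the universal cover of the finite aspherical
complex `M` with fundamental group `G`. An `i`-cochain of the covering `M_C` with coefficients in
the local system of the representation `π` of `C` on `V` is a tuple of functions `f j : G → V`, one
for each `i`-cell of `M`, with `f j (c x) = π(c) (f j x)` for `c ∈ C`; it has compact support if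
`f j x` is zero for `x` outside finitely many cosets `C t` (`IsChn`).
-/

set_option autoImplicit false

namespace Pool.Agent.R630.ZP

open Pool.Agent.TH98.ZT (URep)

variable {G : Type} [Group G]

/-- Action of a matrix `D` over `ℤ[G]` on tuples of functions, the transpose of
`f ↦ f · D` (`Pool.Agent.TH98.ZT.bd`): `(D · f) j = ∑_k D j k · f k`, where
`a = ∑_g a_g g ∈ ℤ[G]` acts by `(a · f)(x) = ∑_g a_g f(x g)`. For `D = X.d i` this is the
coboundary of `i`-cochains. -/
def cb {W : Type} [AddCommGroup W] {a b : ℕ} (D : Matrix (Fin a) (Fin b) (MonoidAlgebra ℤ G))
    (f : Fin b → G → W) : Fin a → G → W :=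
  fun j x => ∑ k, ∑ g ∈ (D j k).coeff.support, (D j k).coeff g • f k (x * g)

/-- The pairing of a chain `z` and a cochain `c` on `M_C`: the sum of the inner products of their
values over all cells of `M_C`, that is over the pairs of a cell `j` of `M` and a coset `C x`,
represented by `q.out`. -/
noncomputable def pair (C : Subgroup G) {V : Type} [NormedAddCommGroup V] [InnerProductSpace ℂ V]
    {m : ℕ} (z c : Fin m → G → V) : ℂ :=
  ∑ᶠ q : Quotient (QuotientGroup.rightRel C), ∑ j, @inner ℂ V InnerProductSpace.toInner
    (z j q.out) (c j q.out)

end Pool.Agent.R630.ZP
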