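import Pool.Agent.TH98.ZT.Amen
import Pool.Agent.R630.ZP.Defs

set_option autoImplicit false
set_option linter.unusedSectionVars false

open scoped Matrix ENNReal

namespace Pool.Agent.R630.ZP

open Pool.Agent.H919R4.ZS (FinRes RedC toRed L lregL lregL_apply L_single valR act coe_toRed
  act_mul act_add act_one)
open Pool.Agent.TH98.ZT (URep IsChn chains bd L2 transl reg coact adjoint_L_apply hasSum_norm_sq
  hasSum_orbit transl_apply exists_reps chi cc ext ext_equi ext_supp ext_at eq_ext ker Phi inner_ext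
  bd_ext_equi exists_reps_bd Tempered regCoef)

noncomputable section

variable {G : Type} [Group G]

/-! ### the operator inequality -/

lemma act_sq {a b : ℕ} (s : Matrix (Fin b) (Fin a) (L2 G →L[ℂ] L2 G)) (w : Fin a → L2 G) :
    ∑ k, ‖act s w k‖ ^ 2 ≤ (∑ k, ∑ l, ‖s k l‖ ^ 2) * ∑ j, ‖w j‖ ^ 2 := by
  rw [Finset.sum_mul]
  refine Finset.sum_le_sum fun k _ => ?_
  have e1 : ‖act s w k‖ ≤ ∑ l, ‖s k l‖ * ‖w l‖ :=
    (norm_sum_le _ _).trans (Finset.sum_le_sum fun l _ => ContinuousLinearMap.le_opNorm _ _)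
  refine (pow_le_pow_left₀ (norm_nonneg _) e1 2).trans ?_
  exact Finset.sum_mul_sq_le_sq_mul_sq _ _ _

lemma norm_sum_inner {E : Type} [NormedAddCommGroup E] [InnerProductSpace ℂ E] {a : ℕ}
    (u v : Fin a → E) :
    ‖∑ j, (inner ℂ (u j) (v j) : ℂ)‖ ≤ √(∑ j, ‖u j‖ ^ 2) * √(∑ j, ‖v j‖ ^ 2) := by
  have h1 : ‖∑ j, (inner ℂ (u j) (v j) : ℂ)‖ ≤ ∑ j, ‖u j‖ * ‖v j‖ :=
    (norm_sum_le _ _).trans (Finset.sum_le_sum fun j _ => norm_inner_le_norm _ _)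
  refine h1.trans ?_
  rw [← Real.sqrt_mul (Finset.sum_nonneg fun _ _ => by positivity)]
  refine Real.le_sqrt_of_sq_le ?_
  exact Finset.sum_mul_sq_le_sq_mul_sq _ _ _

variable {a b e : ℕ}

/-- the constant -/
def KK (s' : Matrix (Fin b) (Fin a) (L2 G →L[ℂ] L2 G))
    (s : Matrix (Fin a) (Fin e) (L2 G →L[ℂ] L2 G)) : ℝ :=
  √(∑ k, ∑ l, ‖s' k l‖ ^ 2) + √(∑ k, ∑ l, ‖s k l‖ ^ 2)

lemma KK_nonneg (s' : Matrix (Fin b) (Fin a) (L2 G →L[ℂ] L2 G))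
    (s : Matrix (Fin a) (Fin e) (L2 G →L[ℂ] L2 G)) : 0 ≤ KK s' s :=
  add_nonneg (Real.sqrt_nonneg _) (Real.sqrt_nonneg _)

lemma op_ineq (A : Matrix (Fin a) (Fin b) (L2 G →L[ℂ] L2 G))
    (B : Matrix (Fin e) (Fin a) (L2 G →L[ℂ] L2 G)) (s' : Matrix (Fin b) (Fin a) (L2 G →L[ℂ] L2 G))
    (s : Matrix (Fin a) (Fin e) (L2 G →L[ℂ] L2 G)) (h : A * s' + s * B = 1)
    (U W : Fin a → L2 G) :
    ‖∑ j, (inner ℂ (U j) (W j) : ℂ)‖ ≤ KK s' s * (√(∑ l, ‖coact A U l‖ ^ 2) * √(∑ j, ‖W j‖ ^ 2) +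
      √(∑ j, ‖U j‖ ^ 2) * √(∑ i, ‖act B W i‖ ^ 2)) := by
  have h1 : W = act A (act s' W) + act s (act B W) := by
    rw [← act_mul, ← act_mul, ← act_add, h, act_one]
  have h2 : ∑ j, (inner ℂ (U j) (W j) : ℂ) =
      ∑ l, (inner ℂ (coact A U l) (act s' W l) : ℂ) +
        ∑ j, (inner ℂ (U j) (act s (act B W) j) : ℂ) := by
    conv_lhs => rw [h1]
    simp only [Pi.add_apply, inner_add_right, Finset.sum_add_distrib]
    congr 1
    calc ∑ j, (inner ℂ (U j) (act A (act s' W) j) : ℂ)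
        = ∑ j, ∑ l, (inner ℂ (U j) (A j l (act s' W l)) : ℂ) := by
          refine Finset.sum_congr rfl fun j _ => ?_
          change inner ℂ (U j) (∑ l, A j l (act s' W l)) = _
          rw [inner_sum]
      _ = ∑ l, ∑ j, (inner ℂ (U j) (A j l (act s' W l)) : ℂ) := Finset.sum_comm
      _ = ∑ l, (inner ℂ (coact A U l) (act s' W l) : ℂ) := by
          refine Finset.sum_congr rfl fun l _ => ?_
          rw [coact, sum_inner]
          refine Finset.sum_congr rfl fun j _ => ?_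
          rw [ContinuousLinearMap.adjoint_inner_left]
  have h3 : √(∑ l, ‖act s' W l‖ ^ 2) ≤ √(∑ k, ∑ l, ‖s' k l‖ ^ 2) * √(∑ j, ‖W j‖ ^ 2) := by
    rw [← Real.sqrt_mul (Finset.sum_nonneg fun _ _ => Finset.sum_nonneg fun _ _ => by positivity)]
    exact Real.sqrt_le_sqrt (act_sq s' W)
  have h4 : √(∑ l, ‖act s (act B W) l‖ ^ 2) ≤
      √(∑ k, ∑ l, ‖s k l‖ ^ 2) * √(∑ j, ‖act B W j‖ ^ 2) := by
    rw [← Real.sqrt_mul (Finset.sum_nonneg fun _ _ => Finset.sum_nonneg fun _ _ => by positivity)]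
    exact Real.sqrt_le_sqrt (act_sq s (act B W))
  rw [h2]
  refine (norm_add_le _ _).trans ?_
  have h5 := norm_sum_inner (coact A U) (act s' W)
  have h6 := norm_sum_inner U (act s (act B W))
  set p1 := √(∑ k, ∑ l, ‖s' k l‖ ^ 2)
  set p2 := √(∑ k, ∑ l, ‖s k l‖ ^ 2)
  set q1 := √(∑ l, ‖coact A U l‖ ^ 2)
  set q2 := √(∑ j, ‖W j‖ ^ 2)
  set q3 := √(∑ j, ‖U j‖ ^ 2)
  set q4 := √(∑ i, ‖act B W i‖ ^ 2)
  have n1 : 0 ≤ p1 := Real.sqrt_nonneg _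
  have n2 : 0 ≤ p2 := Real.sqrt_nonneg _
  have n3 : 0 ≤ q1 := Real.sqrt_nonneg _
  have n4 : 0 ≤ q2 := Real.sqrt_nonneg _
  have n5 : 0 ≤ q3 := Real.sqrt_nonneg _
  have n6 : 0 ≤ q4 := Real.sqrt_nonneg _
  have h7 : q1 * √(∑ l, ‖act s' W l‖ ^ 2) ≤ q1 * (p1 * q2) := mul_le_mul_of_nonneg_left h3 n3
  have h8 : q3 * √(∑ l, ‖act s (act B W) l‖ ^ 2) ≤ q3 * (p2 * q4) :=
    mul_le_mul_of_nonneg_left h4 n5
  have h9 : KK s' s = p1 + p2 := rfl
  rw [h9]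
  have m1 : 0 ≤ p2 * (q1 * q2) := by positivity
  have m2 : 0 ≤ p1 * (q3 * q4) := by positivity
  nlinarith [h5, h6, h7, h8, m1, m2]

/-! ### square summable functions on the group -/

lemma hasSum_inner' (u w : L2 G) : HasSum (fun x => (inner ℂ (u x) (w x) : ℂ)) (inner ℂ u w) :=
  lp.hasSum_inner u w

lemma scalar_ineq (D : Matrix (Fin a) (Fin b) (MonoidAlgebra ℤ G))
    (E : Matrix (Fin e) (Fin a) (MonoidAlgebra ℤ G))
    (s' : Matrix (Fin b) (Fin a) (L2 G →L[ℂ] L2 G)) (s : Matrix (Fin a) (Fin e) (L2 G →L[ℂ] L2 G))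
    (h : D.map (L (G := G)) * s' + s * E.map (L (G := G)) = 1)
    (u w : Fin a → G → ℂ) (α γ : Fin a → ℝ) (p : Fin a → ℂ) (β : Fin b → ℝ) (δ : Fin e → ℝ)
    (hα : ∀ j, HasSum (fun x => ‖u j x‖ ^ 2) (α j)) (hγ : ∀ j, HasSum (fun x => ‖w j x‖ ^ 2) (γ j))
    (hp : ∀ j, HasSum (fun x => (inner ℂ (u j x) (w j x) : ℂ)) (p j))
    (hβ : ∀ k, HasSum (fun x => ‖bd D u k x‖ ^ 2) (β k))
    (hδ : ∀ k, HasSum (fun x => ‖cb E w k x‖ ^ 2) (δ k)) :
    ‖∑ j, p j‖ ≤ KK s' s * (√(∑ l, β l) * √(∑ j, γ j) + √(∑ j, α j) * √(∑ i, δ i)) := by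
  have hmem : ∀ (v : G → ℂ) (t : ℝ), HasSum (fun x => ‖v x‖ ^ 2) t →
      Memℓp (fun x : G => v x⁻¹) 2 := by
    intro v t hv
    have h1 : Summable fun x => ‖v x⁻¹‖ ^ 2 := (Equiv.inv G).summable_iff.2 hv.summable
    refine memℓp_gen ?_
    have h4 : (2 : ENNReal).toReal = ((2 : ℕ) : ℝ) := by norm_num
    simp only [h4, Real.rpow_natCast]
    exact h1
  obtain ⟨U, hU⟩ : ∃ U : Fin a → L2 G, ∀ j x, U j x = u j x⁻¹ :=
    ⟨fun j => ⟨fun x => u j x⁻¹, hmem _ _ (hα j)⟩, fun j x => rfl⟩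
  obtain ⟨W, hW⟩ : ∃ W : Fin a → L2 G, ∀ j x, W j x = w j x⁻¹ :=
    ⟨fun j => ⟨fun x => w j x⁻¹, hmem _ _ (hγ j)⟩, fun j x => rfl⟩
  have h1 : ∀ j, ‖U j‖ ^ 2 = α j := by
    intro j
    have e1 : (fun x => ‖U j x‖ ^ 2) = (fun x => ‖u j x‖ ^ 2) ∘ (Equiv.inv G) := by
      funext x; rw [hU]; rfl
    exact (hasSum_norm_sq (U j)).unique (e1 ▸ (Equiv.inv G).hasSum_iff.2 (hα j))
  have h1' : ∀ j, ‖W j‖ ^ 2 = γ j := by
    intro j
    have e1 : (fun x => ‖W j x‖ ^ 2) = (fun x => ‖w j x‖ ^ 2) ∘ (Equiv.inv G) := by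
      funext x; rw [hW]; rfl
    exact (hasSum_norm_sq (W j)).unique (e1 ▸ (Equiv.inv G).hasSum_iff.2 (hγ j))
  have hpp : ∀ j, (inner ℂ (U j) (W j) : ℂ) = p j := by
    intro j
    have e1 : (fun x => (inner ℂ (U j x) (W j x) : ℂ)) =
        (fun x => (inner ℂ (u j x) (w j x) : ℂ)) ∘ (Equiv.inv G) := by
      funext x; rw [hU, hW]; rfl
    exact (hasSum_inner' (U j) (W j)).unique (e1 ▸ (Equiv.inv G).hasSum_iff.2 (hp j))
  have h2 : ∀ k x, coact (D.map (L (G := G))) U k x = bd D u k x⁻¹ := by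
    intro k x
    rw [coact, lp.coeFn_sum, Finset.sum_apply, bd]
    refine Finset.sum_congr rfl fun j _ => ?_
    rw [Matrix.map_apply, adjoint_L_apply]
    refine Finset.sum_congr rfl fun g _ => ?_
    rw [hU, mul_inv_rev]
  have h3 : ∀ k, ‖coact (D.map (L (G := G))) U k‖ ^ 2 = β k := by
    intro k
    have e1 : (fun x => ‖coact (D.map (L (G := G))) U k x‖ ^ 2) =
        (fun x => ‖bd D u k x‖ ^ 2) ∘ (Equiv.inv G) := by
      funext x; rw [h2]; rfl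
    exact (hasSum_norm_sq _).unique (e1 ▸ (Equiv.inv G).hasSum_iff.2 (hβ k))
  have hL : ∀ (c : MonoidAlgebra ℤ G) (v : L2 G) (x : G),
      L c v x = ∑ g ∈ c.coeff.support, c.coeff g • v (g⁻¹ * x) := by
    intro c v x
    have e1 : L c = ∑ g ∈ c.coeff.support, (c.coeff g : ℂ) • lregL g := by
      conv_lhs => rw [← MonoidAlgebra.sum_coeff_single c]
      rw [Finsupp.sum, map_sum]
      refine Finset.sum_congr rfl fun g _ => ?_
      rw [L_single, Int.cast_smul_eq_zsmul]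
    rw [e1, sum_apply, lp.coeFn_sum, Finset.sum_apply]
    refine Finset.sum_congr rfl fun g _ => ?_
    rw [smul_apply, lp.coeFn_smul, Pi.smul_apply, lregL_apply]
    simp
  have h4 : ∀ i x, act (E.map (L (G := G))) W i x = cb E w i x⁻¹ := by
    intro i x
    rw [act, lp.coeFn_sum, Finset.sum_apply, cb]
    refine Finset.sum_congr rfl fun j _ => ?_
    rw [Matrix.map_apply, hL]
    refine Finset.sum_congr rfl fun g _ => ?_
    rw [hW, mul_inv_rev, inv_inv]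
  have h5 : ∀ i, ‖act (E.map (L (G := G))) W i‖ ^ 2 = δ i := by
    intro i
    have e1 : (fun x => ‖act (E.map (L (G := G))) W i x‖ ^ 2) =
        (fun x => ‖cb E w i x‖ ^ 2) ∘ (Equiv.inv G) := by
      funext x; rw [h4]; rfl
    exact (hasSum_norm_sq _).unique (e1 ▸ (Equiv.inv G).hasSum_iff.2 (hδ i))
  have h6 := op_ineq _ _ s' s h U W
  simp only [h1, h1', h3, h5, hpp] at h6
  exact h6

end

end Pool.Agent.R630.ZP
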