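import Pool.Agent.R630.ZP.Orb

set_option autoImplicit false
set_option linter.unusedSectionVars false

open scoped Matrix ENNReal

namespace Pool.Agent.R630.ZP

open Pool.Agent.H496R3.ZS (IsAmenable)
open Pool.Agent.H919R4.ZS (FinRes RedC toRed L lregL lregL_apply L_single valR act coe_toRed
  act_mul act_add act_one)
open Pool.Agent.TH98.ZT (URep IsChn chains cyc bd bdHom L2 transl reg coact adjoint_L_apply
  hasSum_norm_sq hasSum_orbit transl_apply exists_reps chi cc ext ext_equi ext_supp ext_at eq_ext ker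
  Phi inner_ext bd_ext_equi exists_reps_bd Tempered regCoef tempered_of_amenable)

noncomputable section

variable {G : Type} [Group G] {C : Subgroup G} {a b e m : ℕ} {T T' T'' : Finset G}

/-- the inequality for the regular representation of `C` -/
lemma reg_ineq (D : Matrix (Fin a) (Fin b) (MonoidAlgebra ℤ G))
    (E : Matrix (Fin e) (Fin a) (MonoidAlgebra ℤ G))
    (s' : Matrix (Fin b) (Fin a) (L2 G →L[ℂ] L2 G)) (s : Matrix (Fin a) (Fin e) (L2 G →L[ℂ] L2 G))
    (h : D.map (L (G := G)) * s' + s * E.map (L (G := G)) = 1)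
    (hT : ∀ t ∈ T, ∀ t' ∈ T, t * t'⁻¹ ∈ C → t = t')
    (hT' : ∀ t ∈ T', ∀ t' ∈ T', t * t'⁻¹ ∈ C → t = t')
    (hT'' : ∀ t ∈ T'', ∀ t' ∈ T'', t * t'⁻¹ ∈ C → t = t')
    (hTT : ∀ f : Fin a → G → L2 C,
        (∀ (j : Fin a) (x : G), f j x ≠ 0 → ∃ t ∈ T, x * t⁻¹ ∈ C) →
        ∀ (k : Fin b) (x : G), bd D f k x ≠ 0 → ∃ t ∈ T', x * t⁻¹ ∈ C)
    (hTT' : ∀ f : Fin a → G → L2 C,
        (∀ (j : Fin a) (x : G), f j x ≠ 0 → ∃ t ∈ T, x * t⁻¹ ∈ C) →
        ∀ (k : Fin e) (x : G), cb E f k x ≠ 0 → ∃ t ∈ T'', x * t⁻¹ ∈ C)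
    (i i' : Fin a → Fin m) (x : Fin m × T → L2 C) :
    ‖PPf C T i i' (ker reg x)‖ ≤ KK s' s *
      (√(BBf C T T' i D (ker reg x)).re * √(PPf C T i' i' (ker reg x)).re +
        √(PPf C T i i (ker reg x)).re * √(DDf C T T'' i' E (ker reg x)).re) := by
  rw [PPf_ker, BBf_ker, DDf_ker, PPf_ker_self, PPf_ker_self, Complex.ofReal_re, Complex.ofReal_re,
    Complex.ofReal_re, Complex.ofReal_re]
  have hval : ∀ (v : Fin m) , ∑ t : T, ‖x (v, t)‖ ^ 2 = ∑ t ∈ T, ‖ext reg x v t‖ ^ 2 := by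
    intro v
    rw [← Finset.sum_coe_sort T]
    refine Finset.sum_congr rfl fun t _ => ?_
    rw [ext_at reg hT x v t]
  have hval2 : ∀ (v v' : Fin m) , ∑ t : T, (inner ℂ (x (v, t)) (x (v', t)) : ℂ) =
      ∑ t ∈ T, (inner ℂ (ext reg x v t) (ext reg x v' t) : ℂ) := by
    intro v v'
    rw [← Finset.sum_coe_sort T]
    refine Finset.sum_congr rfl fun t _ => ?_
    rw [ext_at reg hT x v t, ext_at reg hT x v' t]
  simp only [hval, hval2]
  refine scalar_ineq D E s' s h (fun j y => ext reg x (i j) y 1) (fun j y => ext reg x (i' j) y 1)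
    (fun j => ∑ t ∈ T, ‖ext reg x (i j) t‖ ^ 2) (fun j => ∑ t ∈ T, ‖ext reg x (i' j) t‖ ^ 2)
    (fun j => ∑ t ∈ T, (inner ℂ (ext reg x (i j) t) (ext reg x (i' j) t) : ℂ))
    (fun k => ∑ y ∈ T', ‖bd D (fun j => ext reg x (i j)) k y‖ ^ 2)
    (fun k => ∑ y ∈ T'', ‖cb E (fun j => ext reg x (i' j)) k y‖ ^ 2) ?_ ?_ ?_ ?_ ?_
  · intro j
    exact hasSum_orbit (ext reg x (i j)) (fun c y => ext_equi reg x (i j) c y) T hT
      (fun y hy => ext_supp reg x (i j) y hy)
  · intro j
    exact hasSum_orbit (ext reg x (i' j)) (fun c y => ext_equi reg x (i' j) c y) T hT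
      (fun y hy => ext_supp reg x (i' j) y hy)
  · intro j
    exact hasSum_orbit_inner (ext reg x (i j)) (ext reg x (i' j))
      (fun c y => ext_equi reg x (i j) c y) (fun c y => ext_equi reg x (i' j) c y) T hT
      (fun y hy => ext_supp reg x (i j) y hy)
  · intro k
    have h2 := hasSum_orbit (bd D (fun j => ext reg x (i j)) k)
      (fun c y => bd_ext_equi reg D (fun j => ext reg x (i j))
        (fun j c y => ext_equi reg x (i j) c y) k c y) T' hT'
      (hTT (fun j => ext reg x (i j)) (fun j y hy => ext_supp reg x (i j) y hy) k)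
    have e : (fun y => ‖bd D (fun j y => ext reg x (i j) y 1) k y‖ ^ 2) =
        fun y => ‖bd D (fun j => ext reg x (i j)) k y 1‖ ^ 2 := by
      funext y
      congr 2
      rw [bd, bd, lp.coeFn_sum, Finset.sum_apply]
      refine Finset.sum_congr rfl fun j _ => ?_
      rw [lp.coeFn_sum, Finset.sum_apply]
      refine Finset.sum_congr rfl fun g _ => ?_
      rfl
    rw [e]
    exact h2
  · intro k
    have h2 := hasSum_orbit (cb E (fun j => ext reg x (i' j)) k)
      (fun c y => cb_equi reg E (fun j => ext reg x (i' j))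
        (fun j c y => ext_equi reg x (i' j) c y) k c y) T'' hT''
      (hTT' (fun j => ext reg x (i' j)) (fun j y hy => ext_supp reg x (i' j) y hy) k)
    have e : (fun y => ‖cb E (fun j y => ext reg x (i' j) y 1) k y‖ ^ 2) =
        fun y => ‖cb E (fun j => ext reg x (i' j)) k y 1‖ ^ 2 := by
      funext y
      congr 2
      rw [cb, cb, lp.coeFn_sum, Finset.sum_apply]
      refine Finset.sum_congr rfl fun j _ => ?_
      rw [lp.coeFn_sum, Finset.sum_apply]
      refine Finset.sum_congr rfl fun g _ => ?_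
      rfl
    rw [e]
    exact h2

lemma sum_le {n : ℕ} {K : ℝ} (hK : 0 ≤ K) (P : Fin n → ℂ) (α β γ δ : Fin n → ℝ)
    (hα : ∀ i, 0 ≤ α i) (hβ : ∀ i, 0 ≤ β i) (hγ : ∀ i, 0 ≤ γ i) (hδ : ∀ i, 0 ≤ δ i)
    (h : ∀ i, ‖P i‖ ≤ K * (√(β i) * √(γ i) + √(α i) * √(δ i))) :
    ‖∑ i, P i‖ ≤ K * (√(∑ i, β i) * √(∑ i, γ i) + √(∑ i, α i) * √(∑ i, δ i)) := by
  calc ‖∑ i, P i‖ ≤ ∑ i, ‖P i‖ := norm_sum_le _ _
    _ ≤ ∑ i, K * (√(β i) * √(γ i) + √(α i) * √(δ i)) := Finset.sum_le_sum fun i _ => h i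
    _ = K * (∑ i, √(β i) * √(γ i) + ∑ i, √(α i) * √(δ i)) := by
        rw [← Finset.mul_sum, Finset.sum_add_distrib]
    _ ≤ _ := by
        refine mul_le_mul_of_nonneg_left (add_le_add ?_ ?_) hK
        · exact Real.sum_sqrt_mul_sqrt_le _ hβ hγ
        · exact Real.sum_sqrt_mul_sqrt_le _ hα hδ

/-- **the vanishing theorem**, for a contraction in one degree -/
theorem core (D : Matrix (Fin a) (Fin b) (MonoidAlgebra ℤ G))
    (E : Matrix (Fin e) (Fin a) (MonoidAlgebra ℤ G))
    (s' : Matrix (Fin b) (Fin a) (L2 G →L[ℂ] L2 G)) (s : Matrix (Fin a) (Fin e) (L2 G →L[ℂ] L2 G))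
    (h : D.map (L (G := G)) * s' + s * E.map (L (G := G)) = 1)
    {V : Type} [NormedAddCommGroup V] [InnerProductSpace ℂ V] (π : URep C V) (hπ : Tempered π)
    (z c : Fin a → G → V) (hz : IsChn π z) (hc : IsChn π c) (hzb : bd D z = 0) (hcb : cb E c = 0) :
    pair C z c = 0 := by
  classical
  obtain ⟨hz1, S1, hS1⟩ := hz
  obtain ⟨hc1, S2, hS2⟩ := hc
  obtain ⟨T, hT, hST⟩ := exists_reps C (S1 ∪ S2)
  obtain ⟨T', hT', hTT⟩ := exists_reps_bd (b := b) C T D
  obtain ⟨T'', hT'', hTT'⟩ := exists_reps_cb C T E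
  have hsz : ∀ (j : Fin a) (x : G), z j x ≠ 0 → ∃ t ∈ T, x * t⁻¹ ∈ C := by
    intro j x hx
    obtain ⟨s, hs, hsC⟩ := hS1 j x hx
    obtain ⟨t, ht, htC⟩ := hST s (Finset.mem_union_left _ hs)
    refine ⟨t, ht, ?_⟩
    have e : x * t⁻¹ = (x * s⁻¹) * (s * t⁻¹) := by group
    rw [e]
    exact C.mul_mem hsC htC
  have hsc : ∀ (j : Fin a) (x : G), c j x ≠ 0 → ∃ t ∈ T, x * t⁻¹ ∈ C := by
    intro j x hx
    obtain ⟨s, hs, hsC⟩ := hS2 j x hx
    obtain ⟨t, ht, htC⟩ := hST s (Finset.mem_union_right _ hs)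
    refine ⟨t, ht, ?_⟩
    have e : x * t⁻¹ = (x * s⁻¹) * (s * t⁻¹) := by group
    rw [e]
    exact C.mul_mem hsC htC
  set F : Fin (a + a) → G → V := Fin.append z c with hF
  have hFz : ∀ j, F (Fin.castAdd a j) = z j := fun j => Fin.append_left z c j
  have hFc : ∀ j, F (Fin.natAdd a j) = c j := fun j => Fin.append_right z c j
  have hF1 : ∀ (j : Fin (a + a)) (c : C) (x : G), F j (c * x) = π.hom c (F j x) := by
    intro j
    refine Fin.addCases (fun j => ?_) (fun j => ?_) j
    · rw [hFz]; exact hz1 j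
    · rw [hFc]; exact hc1 j
  have hFs : ∀ (j : Fin (a + a)) (x : G), F j x ≠ 0 → ∃ t ∈ T, x * t⁻¹ ∈ C := by
    intro j
    refine Fin.addCases (fun j => ?_) (fun j => ?_) j
    · rw [hFz]; exact hsz j
    · rw [hFc]; exact hsc j
  have hfe := eq_ext π.hom hT F hF1 hFs
  set v : Fin (a + a) × T → V := fun p => F p.1 p.2 with hv
  set i1 : Fin a → Fin (a + a) := Fin.castAdd a with hi1
  set i2 : Fin a → Fin (a + a) := Fin.natAdd a with hi2
  have h1 : ker π.hom v ∈ closure {κ : (Fin (a + a) × T) × (Fin (a + a) × T) × C → ℂ |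
      ∃ (N : ℕ) (w : Fin (a + a) × T → Fin N → L2 C), κ = regCoef w} :=
    hπ (Fin (a + a) × T) v
  have h2 : IsClosed {κ : (Fin (a + a) × T) × (Fin (a + a) × T) × C → ℂ |
      ‖PPf C T i1 i2 κ‖ ≤ KK s' s *
      (√(BBf C T T' i1 D κ).re * √(PPf C T i2 i2 κ).re +
        √(PPf C T i1 i1 κ).re * √(DDf C T T'' i2 E κ).re)} := by
    refine isClosed_le ?_ ?_
    · exact (PPf C T i1 i2).continuous.norm
    · refine continuous_const.mul (Continuous.add (Continuous.mul ?_ ?_) (Continuous.mul ?_ ?_))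
      · exact Real.continuous_sqrt.comp (Complex.continuous_re.comp (BBf C T T' i1 D).continuous)
      · exact Real.continuous_sqrt.comp (Complex.continuous_re.comp (PPf C T i2 i2).continuous)
      · exact Real.continuous_sqrt.comp (Complex.continuous_re.comp (PPf C T i1 i1).continuous)
      · exact Real.continuous_sqrt.comp (Complex.continuous_re.comp (DDf C T T'' i2 E).continuous)
  have h3 : ‖PPf C T i1 i2 (ker π.hom v)‖ ≤ KK s' s *
      (√(BBf C T T' i1 D (ker π.hom v)).re * √(PPf C T i2 i2 (ker π.hom v)).re +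
        √(PPf C T i1 i1 (ker π.hom v)).re * √(DDf C T T'' i2 E (ker π.hom v)).re) := by
    refine closure_minimal ?_ h2 h1
    rintro _ ⟨N, w, rfl⟩
    have e1 : regCoef w = ∑ n, ker reg (fun q => w q n) := by
      funext p
      rw [Finset.sum_apply]
      rfl
    change ‖PPf C T i1 i2 _‖ ≤ KK s' s *
      (√(BBf C T T' i1 D _).re * √(PPf C T i2 i2 _).re +
        √(PPf C T i1 i1 _).re * √(DDf C T T'' i2 E _).re)
    rw [e1, map_sum, map_sum, map_sum, map_sum, map_sum, Complex.re_sum, Complex.re_sum,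
      Complex.re_sum, Complex.re_sum]
    refine sum_le (KK_nonneg s' s) _ _ _ _ _ ?_ ?_ ?_ ?_ ?_
    · intro n
      rw [PPf_ker_self, Complex.ofReal_re]
      exact Finset.sum_nonneg fun _ _ => Finset.sum_nonneg fun _ _ => by positivity
    · intro n
      rw [BBf_ker, Complex.ofReal_re]
      exact Finset.sum_nonneg fun _ _ => Finset.sum_nonneg fun _ _ => by positivity
    · intro n
      rw [PPf_ker_self, Complex.ofReal_re]
      exact Finset.sum_nonneg fun _ _ => Finset.sum_nonneg fun _ _ => by positivity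
    · intro n
      rw [DDf_ker, Complex.ofReal_re]
      exact Finset.sum_nonneg fun _ _ => Finset.sum_nonneg fun _ _ => by positivity
    · intro n
      exact reg_ineq D E s' s h hT hT' hT'' (fun f hf => hTT f hf) (fun f hf => hTT' f hf) i1 i2 _
  have e1 : (fun j => ext π.hom v (i1 j)) = z := by
    funext j
    rw [← hfe]
    exact hFz j
  have e2 : (fun j => ext π.hom v (i2 j)) = c := by
    funext j
    rw [← hfe]
    exact hFc j
  have h4 : ‖PPf C T i1 i2 (ker π.hom v)‖ ≤ 0 := by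
    refine h3.trans (le_of_eq ?_)
    rw [BBf_ker, DDf_ker, e1, e2, hzb, hcb]
    simp
  have h5 : PPf C T i1 i2 (ker π.hom v) = 0 := norm_le_zero_iff.1 h4
  rw [PPf_ker] at h5
  -- the pairing as a sum over `T`
  have h6 : pair C z c = ∑ t ∈ T, ∑ j, (inner ℂ (z j t) (c j t) : ℂ) := by
    have hinj : Set.InjOn (fun t : G => (Quotient.mk (QuotientGroup.rightRel C) t)) T := by
      intro t ht t' ht' htt
      have h7 := Quotient.exact htt
      have h8 : t' * t⁻¹ ∈ C := QuotientGroup.rightRel_apply.1 h7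
      exact (hT t' ht' t ht h8).symm
    have hout : ∀ x : G, ∃ d : C, (Quotient.mk (QuotientGroup.rightRel C) x).out = d * x := by
      intro x
      have h7 : Quotient.mk (QuotientGroup.rightRel C) (Quotient.mk (QuotientGroup.rightRel C) x).out =
        Quotient.mk (QuotientGroup.rightRel C) x := Quotient.out_eq _
      have h8 : x * ((Quotient.mk (QuotientGroup.rightRel C) x).out)⁻¹ ∈ C :=
        QuotientGroup.rightRel_apply.1 (Quotient.exact h7)
      refine ⟨⟨_, h8⟩⁻¹, ?_⟩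
      change _ = (x * ((Quotient.mk (QuotientGroup.rightRel C) x).out)⁻¹)⁻¹ * x
      group
    have hinv : ∀ x : G, (∑ j, (inner ℂ (z j (Quotient.mk (QuotientGroup.rightRel C) x).out)
        (c j (Quotient.mk (QuotientGroup.rightRel C) x).out) : ℂ)) =
        ∑ j, (inner ℂ (z j x) (c j x) : ℂ) := by
      intro x
      obtain ⟨d, hd⟩ := hout x
      refine Finset.sum_congr rfl fun j _ => ?_
      rw [hd, hz1, hc1]
      exact (π.hom d).inner_map_map _ _
    rw [pair, finsum_eq_sum_of_support_subset (s := T.image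
      (fun t : G => (Quotient.mk (QuotientGroup.rightRel C) t)))]
    · rw [Finset.sum_image hinj]
      exact Finset.sum_congr rfl fun t _ => hinv t
    · intro q hq
      induction q using Quotient.inductionOn with
      | h x =>
        rw [Function.mem_support] at hq
        rw [hinv x] at hq
        obtain ⟨j, -, hj⟩ := Finset.exists_ne_zero_of_sum_ne_zero hq
        have h8 : z j x ≠ 0 := by
          intro h0
          rw [h0, inner_zero_left] at hj
          exact hj rfl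
        obtain ⟨t, ht, htC⟩ := hsz j x h8
        rw [Finset.coe_image]
        refine ⟨t, ht, ?_⟩
        refine Quotient.sound ?_
        exact QuotientGroup.rightRel_apply.2 htC
  rw [h6, Finset.sum_comm, ← h5]
  refine Finset.sum_congr rfl fun j _ => ?_
  rw [← Finset.sum_coe_sort T]
  refine Finset.sum_congr rfl fun t _ => ?_
  change _ = (inner ℂ (F (i1 j) t) (F (i2 j) t) : ℂ)
  rw [hFz, hFc]

/-- the theorem -/
theorem main (X : FinRes G) {V : Type} [NormedAddCommGroup V] [InnerProductSpace ℂ V]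
    (π : URep C V) (hπ : Tempered π) (k : ℕ)
    (h : ∀ i ≤ k, Subsingleton (X.homology (toRed G) i)) (z c : Fin (X.n k) → G → V)
    (hz : z ∈ cyc X π k) (hc : IsChn π c) (hcb : cb (X.d k) c = 0) : pair C z c = 0 := by
  obtain ⟨s, -, hs⟩ := Pool.Agent.TH254.ZT.exists_contr X (toRed G) k h
  have key : ∀ i, ((X.d i).map (toRed G)).map (valR (G := G)) = (X.d i).map (L (G := G)) := by
    intro i
    refine funext fun j => funext fun k => ?_
    exact coe_toRed (X.d i j k)
  cases k with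
  | zero =>
    have h1 : s * (X.d 0).map (toRed G) = 1 := hs
    have h2 := Pool.Agent.H919R4.ZS.map_ident0 (valR (G := G)) _ _ h1
    rw [key] at h2
    refine core (b := 0) (0 : Matrix (Fin (X.n 0)) (Fin 0) (MonoidAlgebra ℤ G)) (X.d 0)
      (0 : Matrix (Fin 0) (Fin (X.n 0)) (L2 G →L[ℂ] L2 G))
      (s.map (valR (G := G))) ?_ π hπ z c hz hc (by funext k; exact k.elim0) hcb
    rw [h2, Matrix.mul_zero, zero_add]
  | succ k =>
    obtain ⟨s', hs'⟩ := hs
    have h2 := Pool.Agent.H919R4.ZS.map_ident (valR (G := G)) _ _ _ _ hs'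
    rw [key, key] at h2
    exact core (X.d k) (X.d (k + 1)) (s'.map (valR (G := G))) (s.map (valR (G := G))) h2 π hπ z c
      hz.1 hc hz.2 hcb

theorem final (X : FinRes G) {V : Type} [NormedAddCommGroup V] [InnerProductSpace ℂ V]
    (π : URep C V) (hπ : IsAmenable C ∨ Tempered π) (k : ℕ) (z c : Fin (X.n k) → G → V)
    (hz : z ∈ cyc X π k) (hc : IsChn π c) (hcb : cb (X.d k) c = 0) (hne : pair C z c ≠ 0) :
    ∃ i ≤ k, Nontrivial (X.homology (toRed G) i) := by
  by_contra hcon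
  push Not at hcon
  have h1 : ∀ i ≤ k, Subsingleton (X.homology (toRed G) i) := fun i hi =>
    not_nontrivial_iff_subsingleton.1 (by simpa using hcon i hi)
  refine hne (main X π ?_ k h1 z c hz hc hcb)
  rcases hπ with hC | hT
  · exact tempered_of_amenable hC π
  · exact hT

end

end Pool.Agent.R630.ZP
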