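import Pool.Agent.R630.ZP.Core

set_option autoImplicit false
set_option linter.unusedSectionVars false

open scoped Matrix ENNReal

namespace Pool.Agent.R630.ZP

open Pool.Agent.H919R4.ZS (FinRes RedC toRed L lregL lregL_apply L_single valR act coe_toRed
  act_mul act_add act_one)
open Pool.Agent.TH98.ZT (URep IsChn chains bd L2 transl reg coact adjoint_L_apply hasSum_norm_sq
  hasSum_orbit transl_apply exists_reps chi cc ext ext_equi ext_supp ext_at eq_ext ker Phi inner_ext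
  bd_ext_equi exists_reps_bd Tempered regCoef)

noncomputable section

variable {G : Type} [Group G] {C : Subgroup G} {a b e m : ℕ}

/-- evaluation at the identity of two equivariant functions with values in `ℓ²(C)` -/
lemma hasSum_orbit_inner (F H : G → L2 C) (hF : ∀ (c : C) (x : G), F (c * x) = transl c (F x))
    (hH : ∀ (c : C) (x : G), H (c * x) = transl c (H x))
    (T : Finset G) (hT : ∀ t ∈ T, ∀ t' ∈ T, t * t'⁻¹ ∈ C → t = t')
    (hs : ∀ x, F x ≠ 0 → ∃ t ∈ T, x * t⁻¹ ∈ C) :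
    HasSum (fun x => (inner ℂ (F x 1) (H x 1) : ℂ)) (∑ t ∈ T, (inner ℂ (F t) (H t) : ℂ)) := by
  classical
  have h1 : ∀ t ∈ T, HasSum (fun y : G => if y * t⁻¹ ∈ C then (inner ℂ (F y 1) (H y 1) : ℂ) else 0)
      (inner ℂ (F t) (H t)) := by
    intro t _
    have hinj : Function.Injective (fun x : C => ((x⁻¹ : C) : G) * t) := by
      intro x y hxy
      have := mul_right_cancel hxy
      exact inv_injective (Subtype.ext this)
    rw [← hinj.hasSum_iff]
    · have e1 : ((fun y : G => if y * t⁻¹ ∈ C then (inner ℂ (F y 1) (H y 1) : ℂ) else 0) ∘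
          fun x : C => ((x⁻¹ : C) : G) * t) = fun x => (inner ℂ (F t x) (H t x) : ℂ) := by
        funext x
        change (if ((x⁻¹ : C) : G) * t * t⁻¹ ∈ C then
          (inner ℂ (F (((x⁻¹ : C) : G) * t) 1) (H (((x⁻¹ : C) : G) * t) 1) : ℂ) else 0) = _
        rw [if_pos (by rw [mul_inv_cancel_right]; exact (x⁻¹).2), hF, hH, transl_apply,
          transl_apply, inv_inv, mul_one]
      rw [e1]
      exact hasSum_inner' (F t) (H t)
    · intro y hy
      rw [if_neg]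
      intro hC
      apply hy
      refine ⟨⟨y * t⁻¹, hC⟩⁻¹, ?_⟩
      change (((⟨y * t⁻¹, hC⟩⁻¹ : C)⁻¹ : C) : G) * t = y
      rw [inv_inv]
      change y * t⁻¹ * t = y
      rw [inv_mul_cancel_right]
  have h2 := hasSum_sum h1
  have e2 : (fun x => (inner ℂ (F x 1) (H x 1) : ℂ)) =
      fun y => ∑ t ∈ T, (if y * t⁻¹ ∈ C then (inner ℂ (F y 1) (H y 1) : ℂ) else 0) := by
    funext y
    by_cases hy : F y = 0
    · rw [hy]
      rw [Finset.sum_eq_zero]
      · simp
      · intro t _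
        split_ifs <;> simp
    · obtain ⟨t, ht, htC⟩ := hs y hy
      rw [Finset.sum_eq_single t]
      · rw [if_pos htC]
      · intro t' ht' hne
        rw [if_neg]
        intro hC
        apply hne
        refine hT t' ht' t ht ?_
        have : t' * t⁻¹ = (y * t'⁻¹)⁻¹ * (y * t⁻¹) := by group
        rw [this]
        exact C.mul_mem (C.inv_mem hC) htC
      · intro h; exact absurd ht h
  rw [e2]
  exact h2

section unitary

variable {W : Type} [NormedAddCommGroup W] [InnerProductSpace ℂ W] (ρ : C →* (W ≃ₗᵢ[ℂ] W))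
  {T T' : Finset G}

lemma cb_equi (E : Matrix (Fin e) (Fin a) (MonoidAlgebra ℤ G)) (f : Fin a → G → W)
    (hf : ∀ (j : Fin a) (c : C) (x : G), f j (c * x) = ρ c (f j x)) (k : Fin e) (c : C) (x : G) :
    cb E f k (c * x) = ρ c (cb E f k x) := by
  simp only [cb, map_sum, map_zsmul]
  refine Finset.sum_congr rfl fun j _ => Finset.sum_congr rfl fun g _ => ?_
  rw [mul_assoc, hf]

/-- sums of inner products of values -/
def PPf (C : Subgroup G) (T : Finset G) {a m : ℕ} (i i' : Fin a → Fin m) :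
    ((Fin m × T) × (Fin m × T) × C → ℂ) →L[ℂ] ℂ :=
  ∑ j : Fin a, ∑ t : T, ContinuousLinearMap.proj ((i j, t), (i' j, t), (1 : C))

lemma PPf_ker (i i' : Fin a → Fin m) (x : Fin m × T → W) :
    PPf C T i i' (ker ρ x) = ∑ j : Fin a, ∑ t : T, (inner ℂ (x (i j, t)) (x (i' j, t)) : ℂ) := by
  rw [PPf, sum_apply]
  refine Finset.sum_congr rfl fun j _ => ?_
  rw [sum_apply]
  refine Finset.sum_congr rfl fun t _ => ?_
  change inner ℂ (ρ 1 (x (i j, t))) (x (i' j, t)) = _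
  rw [map_one]
  rfl

lemma PPf_ker_self (i : Fin a → Fin m) (x : Fin m × T → W) :
    PPf C T i i (ker ρ x) = ((∑ j : Fin a, ∑ t : T, ‖x (i j, t)‖ ^ 2 : ℝ) : ℂ) := by
  rw [PPf_ker, Complex.ofReal_sum]
  refine Finset.sum_congr rfl fun j _ => ?_
  rw [Complex.ofReal_sum]
  refine Finset.sum_congr rfl fun t _ => ?_
  rw [inner_self_eq_norm_sq_to_K]
  norm_cast

/-- squares of the values of the boundary -/
def BBf (C : Subgroup G) (T T' : Finset G) {a b m : ℕ} (i : Fin a → Fin m)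
    (D : Matrix (Fin a) (Fin b) (MonoidAlgebra ℤ G)) :
    ((Fin m × T) × (Fin m × T) × C → ℂ) →L[ℂ] ℂ :=
  ∑ k : Fin b, ∑ x ∈ T', ∑ j : Fin a, ∑ g ∈ (D j k).coeff.support,
    ∑ j' : Fin a, ∑ g' ∈ (D j' k).coeff.support,
      (((D j k).coeff g : ℂ) * ((D j' k).coeff g' : ℂ)) •
        Phi C T m (i j) (x * g⁻¹) (i j') (x * g'⁻¹)

lemma BBf_ker (i : Fin a → Fin m) (D : Matrix (Fin a) (Fin b) (MonoidAlgebra ℤ G))
    (x : Fin m × T → W) :
    BBf C T T' i D (ker ρ x) =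
      ((∑ k : Fin b, ∑ y ∈ T', ‖bd D (fun j => ext ρ x (i j)) k y‖ ^ 2 : ℝ) : ℂ) := by
  simp only [BBf, sum_apply, Complex.ofReal_sum, smul_apply, smul_eq_mul, ← inner_ext]
  refine Finset.sum_congr rfl fun k _ => Finset.sum_congr rfl fun y _ => ?_
  have e1 : ((‖bd D (fun j => ext ρ x (i j)) k y‖ ^ 2 : ℝ) : ℂ) =
      inner ℂ (bd D (fun j => ext ρ x (i j)) k y) (bd D (fun j => ext ρ x (i j)) k y) := by
    rw [inner_self_eq_norm_sq_to_K]
    norm_cast
  rw [e1]
  have e2 : bd D (fun j => ext ρ x (i j)) k y = ∑ j, ∑ g ∈ (D j k).coeff.support,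
      ((D j k).coeff g : ℂ) • ext ρ x (i j) (y * g⁻¹) := by
    rw [bd]
    refine Finset.sum_congr rfl fun j _ => Finset.sum_congr rfl fun g _ => ?_
    rw [Int.cast_smul_eq_zsmul]
  rw [e2, sum_inner]
  refine Finset.sum_congr rfl fun j _ => ?_
  rw [sum_inner]
  refine Finset.sum_congr rfl fun g _ => ?_
  rw [inner_smul_left, inner_sum, Finset.mul_sum]
  refine Finset.sum_congr rfl fun j' _ => ?_
  rw [inner_sum, Finset.mul_sum]
  refine Finset.sum_congr rfl fun g' _ => ?_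
  rw [inner_smul_right]
  rw [show (starRingEnd ℂ) (((D j k).coeff g : ℤ) : ℂ) = (((D j k).coeff g : ℤ) : ℂ) from
    map_intCast _ _]
  ring

/-- squares of the values of the coboundary -/
def DDf (C : Subgroup G) (T T' : Finset G) {a e m : ℕ} (i : Fin a → Fin m)
    (E : Matrix (Fin e) (Fin a) (MonoidAlgebra ℤ G)) :
    ((Fin m × T) × (Fin m × T) × C → ℂ) →L[ℂ] ℂ :=
  ∑ k : Fin e, ∑ x ∈ T', ∑ j : Fin a, ∑ g ∈ (E k j).coeff.support,
    ∑ j' : Fin a, ∑ g' ∈ (E k j').coeff.support,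
      (((E k j).coeff g : ℂ) * ((E k j').coeff g' : ℂ)) •
        Phi C T m (i j) (x * g) (i j') (x * g')

lemma DDf_ker (i : Fin a → Fin m) (E : Matrix (Fin e) (Fin a) (MonoidAlgebra ℤ G))
    (x : Fin m × T → W) :
    DDf C T T' i E (ker ρ x) =
      ((∑ k : Fin e, ∑ y ∈ T', ‖cb E (fun j => ext ρ x (i j)) k y‖ ^ 2 : ℝ) : ℂ) := by
  simp only [DDf, sum_apply, Complex.ofReal_sum, smul_apply, smul_eq_mul, ← inner_ext]
  refine Finset.sum_congr rfl fun k _ => Finset.sum_congr rfl fun y _ => ?_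
  have e1 : ((‖cb E (fun j => ext ρ x (i j)) k y‖ ^ 2 : ℝ) : ℂ) =
      inner ℂ (cb E (fun j => ext ρ x (i j)) k y) (cb E (fun j => ext ρ x (i j)) k y) := by
    rw [inner_self_eq_norm_sq_to_K]
    norm_cast
  rw [e1]
  have e2 : cb E (fun j => ext ρ x (i j)) k y = ∑ j, ∑ g ∈ (E k j).coeff.support,
      ((E k j).coeff g : ℂ) • ext ρ x (i j) (y * g) := by
    rw [cb]
    refine Finset.sum_congr rfl fun j _ => Finset.sum_congr rfl fun g _ => ?_
    rw [Int.cast_smul_eq_zsmul]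
  rw [e2, sum_inner]
  refine Finset.sum_congr rfl fun j _ => ?_
  rw [sum_inner]
  refine Finset.sum_congr rfl fun g _ => ?_
  rw [inner_smul_left, inner_sum, Finset.mul_sum]
  refine Finset.sum_congr rfl fun j' _ => ?_
  rw [inner_sum, Finset.mul_sum]
  refine Finset.sum_congr rfl fun g' _ => ?_
  rw [inner_smul_right]
  rw [show (starRingEnd ℂ) (((E k j).coeff g : ℤ) : ℂ) = (((E k j).coeff g : ℤ) : ℂ) from
    map_intCast _ _]
  ring

end unitary

/-- representatives for the coboundary -/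
lemma exists_reps_cb (C : Subgroup G) (T : Finset G) (E : Matrix (Fin e) (Fin a) (MonoidAlgebra ℤ G)) :
    ∃ T' : Finset G, (∀ t ∈ T', ∀ t' ∈ T', t * t'⁻¹ ∈ C → t = t') ∧
      ∀ {W : Type} [AddCommGroup W] (f : Fin a → G → W),
        (∀ (j : Fin a) (x : G), f j x ≠ 0 → ∃ t ∈ T, x * t⁻¹ ∈ C) →
        ∀ (k : Fin e) (x : G), cb E f k x ≠ 0 → ∃ t ∈ T', x * t⁻¹ ∈ C := by
  classical
  obtain ⟨T', h1, h2⟩ := exists_reps C (Finset.univ.biUnion fun j : Fin a =>
    Finset.univ.biUnion fun k : Fin e => (T ×ˢ (E k j).coeff.support).image fun p => p.1 * p.2⁻¹)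
  refine ⟨T', h1, ?_⟩
  intro W _ f hf k x hx
  obtain ⟨j, -, hj⟩ := Finset.exists_ne_zero_of_sum_ne_zero hx
  obtain ⟨g, hg, hgj⟩ := Finset.exists_ne_zero_of_sum_ne_zero hj
  have h3 : f j (x * g) ≠ 0 := by
    intro h0
    rw [h0, smul_zero] at hgj
    exact hgj rfl
  obtain ⟨t, ht, htC⟩ := hf j _ h3
  obtain ⟨t', ht', htC'⟩ := h2 (t * g⁻¹) (by
    rw [Finset.mem_biUnion]
    refine ⟨j, Finset.mem_univ _, ?_⟩
    rw [Finset.mem_biUnion]
    exact ⟨k, Finset.mem_univ _, Finset.mem_image.2 ⟨(t, g), Finset.mem_product.2 ⟨ht, hg⟩, rfl⟩⟩)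
  refine ⟨t', ht', ?_⟩
  have e : x * t'⁻¹ = (x * g * t⁻¹) * (t * g⁻¹ * t'⁻¹) := by group
  rw [e]
  exact C.mul_mem htC htC'

end

end Pool.Agent.R630.ZP
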